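import Mathlib

/-!
Fourier positivity for quadratic maps modulo `p^k`: elementary facts on `ZMod (p^k)`.
-/

set_option autoImplicit false

namespace MPc77682.DB

open Finset

/-- the quadratic form `x ↦ xᵀ S x`. -/
def Q {R : Type*} [CommRing R] {N : ℕ} (S : Matrix (Fin N) (Fin N) R) (x : Fin N → R) : R :=
  x ⬝ᵥ (S.mulVec x)

theorem Q_add {R : Type*} [CommRing R] {N : ℕ} (S : Matrix (Fin N) (Fin N) R) (y z : Fin N → R) :
    Q S (y + z) = Q S y + (Q S z + y ⬝ᵥ ((S + S.transpose).mulVec z)) := by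
  unfold Q
  rw [Matrix.mulVec_add, add_dotProduct, dotProduct_add, dotProduct_add, Matrix.add_mulVec,
    dotProduct_add]
  have : z ⬝ᵥ S.mulVec y = y ⬝ᵥ S.transpose.mulVec z := by
    rw [Matrix.mulVec_transpose, Matrix.dotProduct_mulVec, dotProduct_comm]
  rw [this]
  ring

theorem Q_smul_vec {R : Type*} [CommRing R] {N : ℕ} (S : Matrix (Fin N) (Fin N) R) (c : R)
    (y : Fin N → R) : Q S (c • y) = Q ((c ^ 2) • S) y := by
  unfold Q
  rw [Matrix.mulVec_smul, smul_dotProduct, dotProduct_smul, Matrix.smul_mulVec, dotProduct_smul]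
  simp only [smul_eq_mul]
  ring

theorem Q_zero_mat {R : Type*} [CommRing R] {N : ℕ} (y : Fin N → R) :
    Q (0 : Matrix (Fin N) (Fin N) R) y = 0 := by
  simp [Q]

section
variable (p k : ℕ) [hp : Fact p.Prime]

instance neZeroPow : NeZero (p ^ k) := ⟨pow_ne_zero _ hp.out.ne_zero⟩

/-- divisibility in `ZMod (p^k)` through representatives -/
theorem exists_eq_mul_of_dvd_val {j : ℕ} (x : ZMod (p ^ k)) (h : p ^ j ∣ x.val) :
    ∃ c : ℕ, x = ((p ^ j * c : ℕ) : ZMod (p ^ k)) ∧ x.val = p ^ j * c := by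
  obtain ⟨c, hc⟩ := h
  refine ⟨c, ?_, hc⟩
  rw [← hc, ZMod.natCast_zmod_val]

theorem pow_mul_eq_zero_iff {e : ℕ} (he : e ≤ k) (x : ZMod (p ^ k)) :
    (p : ZMod (p ^ k)) ^ e * x = 0 ↔ p ^ (k - e) ∣ x.val := by
  have h1 : (p : ZMod (p ^ k)) ^ e * x = ((p ^ e * x.val : ℕ) : ZMod (p ^ k)) := by
    push_cast
    rw [ZMod.natCast_zmod_val]
  rw [h1, ZMod.natCast_eq_zero_iff]
  generalize x.val = v
  have h2 : p ^ k = p ^ e * p ^ (k - e) := by rw [← pow_add]; congr 1; omega
  rw [h2]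
  exact Nat.mul_dvd_mul_iff_left (pow_pos hp.out.pos e)

theorem card_dvd_le {j : ℕ} (hj : j ≤ k) :
    (univ.filter (fun x : ZMod (p ^ k) => p ^ j ∣ x.val)).card ≤ p ^ (k - j) := by
  calc (univ.filter (fun x : ZMod (p ^ k) => p ^ j ∣ x.val)).card
      ≤ ((range (p ^ (k - j))).image
          (fun c : ℕ => ((p ^ j * c : ℕ) : ZMod (p ^ k)))).card := by
        apply card_le_card
        intro x hx
        rw [mem_filter] at hx
        obtain ⟨c, hc, hv⟩ := exists_eq_mul_of_dvd_val p k x hx.2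
        rw [mem_image]
        refine ⟨c, ?_, hc.symm⟩
        rw [mem_range]
        have hlt : x.val < p ^ k := ZMod.val_lt x
        rw [hv] at hlt
        have h2 : p ^ k = p ^ j * p ^ (k - j) := by rw [← pow_add]; congr 1; omega
        rw [h2] at hlt
        exact lt_of_mul_lt_mul_left hlt (Nat.zero_le _)
    _ ≤ (range (p ^ (k - j))).card := card_image_le
    _ = p ^ (k - j) := card_range _

theorem card_vec_dvd_le {j : ℕ} (hj : j ≤ k) (N : ℕ) :
    (univ.filter (fun x : Fin N → ZMod (p ^ k) => ∀ u, p ^ j ∣ (x u).val)).card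
      ≤ (p ^ (k - j)) ^ N := by
  have h : (univ.filter (fun x : Fin N → ZMod (p ^ k) => ∀ u, p ^ j ∣ (x u).val))
      = Fintype.piFinset (fun _ : Fin N => univ.filter (fun x : ZMod (p ^ k) => p ^ j ∣ x.val)) := by
    ext x
    simp [Fintype.mem_piFinset]
  rw [h, Fintype.card_piFinset]
  rw [prod_const, card_univ, Fintype.card_fin]
  exact Nat.pow_le_pow_left (card_dvd_le p k hj) N

theorem exists_decomp {s : ℕ} (b : Fin s → ZMod (p ^ k)) :
    ∃ e, e ≤ k ∧ ∃ b0 : Fin s → ZMod (p ^ k), b = (p : ZMod (p ^ k)) ^ (k - e) • b0 ∧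
      (e = 0 ∨ ∃ t, IsUnit (b0 t)) := by
  classical
  have hex : ∃ e, (p : ZMod (p ^ k)) ^ e • b = 0 := by
    refine ⟨k, ?_⟩
    have : ((p : ZMod (p ^ k)) ^ k) = 0 := by
      rw [← Nat.cast_pow, ZMod.natCast_self]
    rw [this, zero_smul]
  let e := Nat.find hex
  have he : (p : ZMod (p ^ k)) ^ e • b = 0 := Nat.find_spec hex
  have hek : e ≤ k := by
    apply Nat.find_min'
    have : ((p : ZMod (p ^ k)) ^ k) = 0 := by
      rw [← Nat.cast_pow, ZMod.natCast_self]
    rw [this, zero_smul]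
  have hdiv : ∀ t, ∃ c : ℕ, b t = ((p ^ (k - e) * c : ℕ) : ZMod (p ^ k)) := by
    intro t
    have h1 : (p : ZMod (p ^ k)) ^ e * b t = 0 := by
      have := congrFun he t
      simpa using this
    rw [pow_mul_eq_zero_iff p k hek] at h1
    obtain ⟨c, hc, _⟩ := exists_eq_mul_of_dvd_val p k (b t) h1
    exact ⟨c, hc⟩
  choose c hc using hdiv
  refine ⟨e, hek, fun t => (c t : ZMod (p ^ k)), ?_, ?_⟩
  · funext t
    rw [hc t]
    simp
  · by_cases h0 : e = 0
    · exact Or.inl h0
    · right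
      by_contra hcon
      push Not at hcon
      have hlt : e - 1 < e := by omega
      refine Nat.find_min hex hlt ?_
      funext t
      have hnu := hcon t
      rw [ZMod.isUnit_iff_coprime] at hnu
      have hpd : p ∣ c t := by
        by_contra hnd
        apply hnu
        exact Nat.Coprime.pow_right k ((Nat.Prime.coprime_iff_not_dvd hp.out).2 hnd).symm
      obtain ⟨d, hd⟩ := hpd
      have : (p : ZMod (p ^ k)) ^ (e - 1) * b t = 0 := by
        rw [hc t, hd]
        have h3 : (p : ZMod (p ^ k)) ^ (e - 1) * ((p ^ (k - e) * (p * d) : ℕ) : ZMod (p ^ k))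
            = ((p ^ k : ℕ) : ZMod (p ^ k)) * (d : ZMod (p ^ k)) := by
          push_cast
          have : (p : ZMod (p ^ k)) ^ k
              = (p : ZMod (p ^ k)) ^ (e - 1) * ((p : ZMod (p ^ k)) ^ (k - e) * p) := by
            rw [← pow_succ, ← pow_add]
            congr 1
            omega
          rw [this]
          ring
        rw [h3, ZMod.natCast_self, zero_mul]
      simpa using this

end

end MPc77682.DB
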