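import Pool.Agent.Lib.MP_c77682_nt.DB.Fin1

/-!
Fourier positivity: Gauss sums of quadratic forms over a finite ring.
-/

set_option autoImplicit false
set_option linter.unusedSectionVars false

namespace MPc77682.DB

open Finset

section
variable {R : Type*} [CommRing R] [Fintype R] [DecidableEq R] (ψ : AddChar R ℂ)

theorem conj_eq (a : R) : (starRingEnd ℂ) (ψ a) = ψ (-a) := (ψ.map_neg_eq_conj a).symm

/-- the sum of a linear character over all vectors. -/
theorem sum_lin (hψ : ψ.IsPrimitive) {N : ℕ} (v : Fin N → R) :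
    ∑ y : Fin N → R, ψ (y ⬝ᵥ v) = if v = 0 then ((Fintype.card R : ℂ) ^ N) else 0 := by
  have h1 : ∀ y : Fin N → R, ψ (y ⬝ᵥ v) = ∏ u, ψ (y u * v u) := by
    intro y
    unfold dotProduct
    have h : ∀ s : Finset (Fin N), ψ (∑ u ∈ s, y u * v u) = ∏ u ∈ s, ψ (y u * v u) := by
      intro s
      induction s using Finset.cons_induction with
      | empty => simp
      | cons a s ha ih => rw [sum_cons, prod_cons, AddChar.map_add_eq_mul, ih]
    exact h univ
  have h2 : ∑ y : Fin N → R, ψ (y ⬝ᵥ v) = ∏ u : Fin N, ∑ a : R, ψ (a * v u) := by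
    rw [prod_univ_sum]
    rw [Fintype.piFinset_univ]
    exact sum_congr rfl fun y _ => h1 y
  rw [h2]
  have h3 : ∀ u : Fin N, ∑ a : R, ψ (a * v u) = if v u = 0 then (Fintype.card R : ℂ) else 0 := by
    intro u
    rw [AddChar.sum_mulShift (v u) hψ]
    split_ifs <;> simp
  simp_rw [h3]
  split_ifs with h
  · subst h
    simp
  · obtain ⟨u, hu⟩ := Function.ne_iff.1 h
    exact prod_eq_zero (mem_univ u) (if_neg hu)

/-- Gauss sum -/
noncomputable def G {N : ℕ} (S : Matrix (Fin N) (Fin N) R) : ℂ := ∑ y : Fin N → R, ψ (Q S y)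

theorem normSq_G (hψ : ψ.IsPrimitive) {N : ℕ} (S : Matrix (Fin N) (Fin N) R) :
    ‖G ψ S‖ ^ 2 ≤ (Fintype.card R : ℝ) ^ N *
      ((univ.filter (fun z : Fin N → R => (S + S.transpose).mulVec z = 0)).card : ℝ) := by
  have h1 : ((‖G ψ S‖ ^ 2 : ℝ) : ℂ) = G ψ S * (starRingEnd ℂ) (G ψ S) := by
    rw [Complex.mul_conj, Complex.normSq_eq_norm_sq]
  have h2 : G ψ S * (starRingEnd ℂ) (G ψ S)
      = ∑ z : Fin N → R, ψ (Q S z) * (if (S + S.transpose).mulVec z = 0
          then ((Fintype.card R : ℂ) ^ N) else 0) := by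
    unfold G
    rw [map_sum, sum_mul_sum, sum_comm]
    have h3 : ∀ y : Fin N → R, ∑ x : Fin N → R, ψ (Q S x) * (starRingEnd ℂ) (ψ (Q S y))
        = ∑ z : Fin N → R, ψ (Q S z) * ψ (y ⬝ᵥ ((S + S.transpose).mulVec z)) := by
      intro y
      rw [← Equiv.sum_comp (Equiv.addLeft y)]
      refine sum_congr rfl fun z _ => ?_
      rw [Equiv.coe_addLeft, Q_add, conj_eq, ← AddChar.map_add_eq_mul, ← AddChar.map_add_eq_mul]
      congr 1
      ring
    simp_rw [h3]
    rw [sum_comm]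
    refine sum_congr rfl fun z _ => ?_
    rw [← mul_sum, sum_lin ψ hψ]
  have h4 : ‖G ψ S‖ ^ 2 = ‖((‖G ψ S‖ ^ 2 : ℝ) : ℂ)‖ := by
    rw [Complex.norm_real, Real.norm_of_nonneg (by positivity)]
  rw [h4, h1, h2]
  refine (norm_sum_le _ _).trans ?_
  have h5 : ∀ z : Fin N → R, ‖ψ (Q S z) * (if (S + S.transpose).mulVec z = 0
          then ((Fintype.card R : ℂ) ^ N) else 0)‖
        = if (S + S.transpose).mulVec z = 0 then ((Fintype.card R : ℝ) ^ N) else 0 := by
    intro z
    rw [norm_mul, ψ.norm_apply, one_mul]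
    split_ifs <;> simp
  simp_rw [h5]
  rw [← sum_filter, sum_const, nsmul_eq_mul, mul_comm]

/-- reality -/
theorem G_real {N : ℕ} (S : Matrix (Fin N) (Fin N) R) (U : Matrix (Fin N) (Fin N) R)
    (hU : IsUnit U.det) (h : ∀ x, Q S (U.mulVec x) = - Q S x) :
    (starRingEnd ℂ) (G ψ S) = G ψ S := by
  unfold G
  rw [map_sum]
  have hUU : IsUnit U := (Matrix.isUnit_iff_isUnit_det U).2 hU
  have hinj : Function.Injective U.mulVec := Matrix.mulVec_injective_of_isUnit hUU
  have hbij : Function.Bijective U.mulVec := (Finite.injective_iff_bijective).1 hinj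
  rw [← Function.Bijective.sum_comp hbij]
  refine sum_congr rfl fun x _ => ?_
  rw [conj_eq, h, neg_neg]

end

end MPc77682.DB
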