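import Pool.Agent.Lib.MP_c77682_nt.DB.Fin2

/-!
Fourier positivity: the transform of the weight of one block is a nonnegative real number.
-/

set_option autoImplicit false
set_option linter.unusedSectionVars false

namespace MPc77682.DB

open Finset

/-- combination of the matrices of a block. -/
def Sb {R : Type*} [CommRing R] {N s : ℕ} (A : Fin s → Matrix (Fin N) (Fin N) R) (b : Fin s → R) :
    Matrix (Fin N) (Fin N) R := ∑ t, b t • A t

theorem Q_Sb {R : Type*} [CommRing R] {N s : ℕ} (A : Fin s → Matrix (Fin N) (Fin N) R)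
    (b : Fin s → R) (x : Fin N → R) : Q (Sb A b) x = ∑ t, b t * Q (A t) x := by
  unfold Q Sb
  rw [Matrix.sum_mulVec, dotProduct_sum]
  refine sum_congr rfl fun t _ => ?_
  rw [Matrix.smul_mulVec, dotProduct_smul, smul_eq_mul]

theorem Sb_smul {R : Type*} [CommRing R] {N s : ℕ} (A : Fin s → Matrix (Fin N) (Fin N) R)
    (c : R) (b : Fin s → R) : Sb A (c • b) = c • Sb A b := by
  unfold Sb
  rw [smul_sum]
  refine sum_congr rfl fun t _ => ?_
  rw [Pi.smul_apply, smul_eq_mul, mul_smul]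

/-- the square root of `p^N`. -/
noncomputable def Lam (p N : ℕ) : ℝ := (Real.sqrt p) ^ N

theorem Lam_sq (p N e : ℕ) : ((Lam p N) ^ e) ^ 2 = ((p : ℝ) ^ e) ^ N := by
  unfold Lam
  rw [← pow_mul, ← pow_mul, ← pow_mul, show N * (e * 2) = 2 * (e * N) by ring, pow_mul,
    Real.sq_sqrt (Nat.cast_nonneg p)]

theorem Lam_one_le (p N : ℕ) (hp : 1 ≤ p) : 1 ≤ Lam p N := by
  unfold Lam
  apply one_le_pow₀
  rw [Real.one_le_sqrt]
  exact_mod_cast hp

section
variable (p k : ℕ) [hp : Fact p.Prime]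

/-- normalised Gauss sum of the block. -/
noncomputable def E (ψ : AddChar (ZMod (p ^ k)) ℂ) {N s : ℕ}
    (A : Fin s → Matrix (Fin N) (Fin N) (ZMod (p ^ k))) (b : Fin s → ZMod (p ^ k)) : ℂ :=
  (((p : ℝ) ^ k) ^ N : ℝ)⁻¹ * G ψ (Sb A b)

/-- transform of the weight of the block -/
noncomputable def F (ψ : AddChar (ZMod (p ^ k)) ℂ) {N s : ℕ}
    (A : Fin s → Matrix (Fin N) (Fin N) (ZMod (p ^ k))) (b : Fin s → ZMod (p ^ k)) : ℂ :=
  ∑ i ∈ range (k + 1), (((Lam p N) ^ i)⁻¹ : ℝ) * E p k ψ A (((p : ZMod (p ^ k)) ^ i) ^ 2 • b)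

variable (ψ : AddChar (ZMod (p ^ k)) ℂ) (hψ : ψ.IsPrimitive) {N s : ℕ}
  (A : Fin s → Matrix (Fin N) (Fin N) (ZMod (p ^ k)))

theorem E_zero : E p k ψ A 0 = 1 := by
  unfold E G Sb
  have h : ∀ y : Fin N → ZMod (p ^ k), ψ (Q (∑ t : Fin s, (0 : Fin s → ZMod (p ^ k)) t • A t) y)
      = 1 := by
    intro y
    simp [Q]
  simp_rw [h]
  rw [sum_const, card_univ, Fintype.card_fun, ZMod.card, Fintype.card_fin, nsmul_eq_mul, mul_one]
  have h0 : ((p : ℂ) ^ k) ^ N ≠ 0 := by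
    apply pow_ne_zero
    apply pow_ne_zero
    exact_mod_cast hp.out.ne_zero
  push_cast
  exact inv_mul_cancel₀ h0

theorem E_im (U : Matrix (Fin N) (Fin N) (ZMod (p ^ k))) (hU : IsUnit U.det)
    (h : ∀ t x, Q (A t) (U.mulVec x) = - Q (A t) x) (b : Fin s → ZMod (p ^ k)) :
    (E p k ψ A b).im = 0 := by
  have h1 : (starRingEnd ℂ) (G ψ (Sb A b)) = G ψ (Sb A b) := by
    refine G_real ψ (Sb A b) U hU fun x => ?_
    rw [Q_Sb, Q_Sb, ← sum_neg_distrib]
    refine sum_congr rfl fun t _ => ?_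
    rw [h t x]
    ring
  have h2 : (G ψ (Sb A b)).im = 0 := Complex.conj_eq_iff_im.1 h1
  unfold E
  rw [Complex.im_ofReal_mul, h2, mul_zero]

theorem E_norm (hψ : ψ.IsPrimitive)
    (hns : ∀ b0 : Fin s → ZMod (p ^ k), (∃ t, IsUnit (b0 t)) →
      IsUnit (Sb A b0 + (Sb A b0).transpose).det) {e : ℕ} (he : e ≤ k)
    (b0 : Fin s → ZMod (p ^ k)) (hb : e = 0 ∨ ∃ t, IsUnit (b0 t)) :
    ‖E p k ψ A ((p : ZMod (p ^ k)) ^ (k - e) • b0)‖ ≤ ((Lam p N) ^ e)⁻¹ := by
  have hppos : (0 : ℝ) < p := by exact_mod_cast hp.out.pos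
  have hk0 : ((p : ZMod (p ^ k)) ^ k) = 0 := by
    rw [← Nat.cast_pow, ZMod.natCast_self]
  rcases Nat.eq_zero_or_pos e with h0 | hpos
  · subst h0
    rw [Nat.sub_zero, hk0, zero_smul, E_zero]
    simp
  · have hu : ∃ t, IsUnit (b0 t) := by
      rcases hb with h | h
      · omega
      · exact h
    set S0 := Sb A b0 with hS0
    have hdet : IsUnit (S0 + S0.transpose).det := hns b0 hu
    have hM : IsUnit (S0 + S0.transpose) := (Matrix.isUnit_iff_isUnit_det _).2 hdet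
    have hinj : Function.Injective (S0 + S0.transpose).mulVec :=
      Matrix.mulVec_injective_of_isUnit hM
    have hG := normSq_G ψ hψ (((p : ZMod (p ^ k)) ^ (k - e)) • S0)
    have hcard : (univ.filter (fun z : Fin N → ZMod (p ^ k) =>
        ((((p : ZMod (p ^ k)) ^ (k - e)) • S0) +
          (((p : ZMod (p ^ k)) ^ (k - e)) • S0).transpose).mulVec z = 0)).card
        ≤ (p ^ (k - e)) ^ N := by
      refine le_trans ?_ (card_vec_dvd_le p k he N)
      refine card_le_card_of_injOn (S0 + S0.transpose).mulVec ?_ hinj.injOn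
      intro z hz
      rw [mem_coe, mem_filter] at hz
      rw [mem_coe, mem_filter]
      refine ⟨mem_univ _, fun u => ?_⟩
      have h1 := congrFun hz.2 u
      rw [Matrix.transpose_smul, ← smul_add, Matrix.smul_mulVec, Pi.smul_apply, smul_eq_mul,
        Pi.zero_apply, pow_mul_eq_zero_iff p k (Nat.sub_le k e)] at h1
      rwa [Nat.sub_sub_self he] at h1
    have hE : ‖E p k ψ A ((p : ZMod (p ^ k)) ^ (k - e) • b0)‖ ^ 2 ≤ (((Lam p N) ^ e)⁻¹) ^ 2 := by
      unfold E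
      rw [Sb_smul, norm_mul, mul_pow, Complex.norm_real, Real.norm_of_nonneg (by positivity),
        inv_pow, inv_pow, Lam_sq]
      have h2 : ‖G ψ (((p : ZMod (p ^ k)) ^ (k - e)) • S0)‖ ^ 2
          ≤ ((p : ℝ) ^ k) ^ N * (((p : ℝ) ^ (k - e)) ^ N) := by
        refine hG.trans ?_
        rw [ZMod.card]
        push_cast
        apply mul_le_mul_of_nonneg_left _ (by positivity)
        exact_mod_cast hcard
      have h3 : ((p : ℝ) ^ k) ^ N = ((p : ℝ) ^ e) ^ N * ((p : ℝ) ^ (k - e)) ^ N := by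
        rw [← mul_pow, ← pow_add]
        congr 2
        omega
      calc ((((p : ℝ) ^ k) ^ N) ^ 2)⁻¹ * ‖G ψ (((p : ZMod (p ^ k)) ^ (k - e)) • S0)‖ ^ 2
          ≤ ((((p : ℝ) ^ k) ^ N) ^ 2)⁻¹ * (((p : ℝ) ^ k) ^ N * (((p : ℝ) ^ (k - e)) ^ N)) := by
            apply mul_le_mul_of_nonneg_left h2 (by positivity)
        _ = (((p : ℝ) ^ e) ^ N)⁻¹ := by
            rw [h3]
            have ha : ((p : ℝ) ^ e) ^ N ≠ 0 := by positivity
            have hb : ((p : ℝ) ^ (k - e)) ^ N ≠ 0 := by positivity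
            field_simp
    have hL : 0 < Lam p N := lt_of_lt_of_le one_pos (Lam_one_le p N hp.out.one_le)
    exact le_of_sq_le_sq hE (by positivity)

/-- the transform of one block has nonnegative real part. -/
theorem F_re_nonneg (hψ : ψ.IsPrimitive)
    (hns : ∀ b0 : Fin s → ZMod (p ^ k), (∃ t, IsUnit (b0 t)) →
      IsUnit (Sb A b0 + (Sb A b0).transpose).det) (b : Fin s → ZMod (p ^ k)) :
    0 ≤ (F p k ψ A b).re := by
  have hL : 0 < Lam p N := lt_of_lt_of_le one_pos (Lam_one_le p N hp.out.one_le)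
  have hF : (F p k ψ A b).re = ∑ i ∈ range (k + 1), ((Lam p N) ^ i)⁻¹ *
    (E p k ψ A (((p : ZMod (p ^ k)) ^ i) ^ 2 • b)).re := by
    unfold F
    rw [Complex.re_sum]
    refine sum_congr rfl fun i _ => ?_
    rw [Complex.re_ofReal_mul]
  rw [hF]
  obtain ⟨e, hek, b0, hb, hb0⟩ := exists_decomp p k b
  rw [← sum_filter_add_sum_filter_not (range (k + 1)) (fun i => 2 * i < e)]
  have h1 : ∑ i ∈ (range (k + 1)).filter (fun i => ¬ 2 * i < e), ((Lam p N) ^ i)⁻¹ *
      (E p k ψ A (((p : ZMod (p ^ k)) ^ i) ^ 2 • b)).re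
      = ∑ i ∈ (range (k + 1)).filter (fun i => ¬ 2 * i < e), ((Lam p N) ^ i)⁻¹ := by
    refine sum_congr rfl fun i hi => ?_
    rw [mem_filter] at hi
    have h0 : ((p : ZMod (p ^ k)) ^ i) ^ 2 • b = 0 := by
      rw [hb, smul_smul, ← pow_mul, ← pow_add,
        show i * 2 + (k - e) = k + (i * 2 - e) by omega, pow_add, ← Nat.cast_pow,
        ZMod.natCast_self, zero_mul, zero_smul]
    rw [h0, E_zero, Complex.one_re, mul_one]
  have h2 : ∑ i ∈ (range (k + 1)).filter (fun i => 2 * i < e), ((Lam p N) ^ (e - i))⁻¹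
      ≤ ∑ i ∈ (range (k + 1)).filter (fun i => ¬ 2 * i < e), ((Lam p N) ^ i)⁻¹ := by
    have hinj : Set.InjOn (fun i => e - i)
        ((range (k + 1)).filter (fun i => 2 * i < e) : Finset ℕ) := by
      intro a ha b hb hab
      rw [mem_coe, mem_filter] at ha hb
      simp only at hab
      omega
    have h3 : ∑ i ∈ (range (k + 1)).filter (fun i => 2 * i < e), ((Lam p N) ^ (e - i))⁻¹
        = ∑ i ∈ ((range (k + 1)).filter (fun i => 2 * i < e)).image (fun i => e - i),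
          ((Lam p N) ^ i)⁻¹ := by
      rw [sum_image hinj]
    rw [h3]
    refine sum_le_sum_of_subset_of_nonneg ?_ fun i _ _ => by positivity
    intro i hi
    rw [mem_image] at hi
    obtain ⟨a, ha, rfl⟩ := hi
    rw [mem_filter, mem_range] at ha ⊢
    omega
  have h4 : - ∑ i ∈ (range (k + 1)).filter (fun i => 2 * i < e), ((Lam p N) ^ (e - i))⁻¹
      ≤ ∑ i ∈ (range (k + 1)).filter (fun i => 2 * i < e), ((Lam p N) ^ i)⁻¹ *
      (E p k ψ A (((p : ZMod (p ^ k)) ^ i) ^ 2 • b)).re := by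
    rw [← sum_neg_distrib]
    refine sum_le_sum fun i hi => ?_
    rw [mem_filter, mem_range] at hi
    have h5 : ((p : ZMod (p ^ k)) ^ i) ^ 2 • b = (p : ZMod (p ^ k)) ^ (k - (e - 2 * i)) • b0 := by
      rw [hb, smul_smul, ← pow_mul, ← pow_add]
      congr 2
      omega
    have h6 : ‖E p k ψ A (((p : ZMod (p ^ k)) ^ i) ^ 2 • b)‖
        ≤ ((Lam p N) ^ (e - 2 * i))⁻¹ := by
      rw [h5]
      refine E_norm p k ψ A hψ hns (by omega) b0 ?_
      rcases hb0 with h | h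
      · exact Or.inl (by omega)
      · exact Or.inr h
    have h7 : - ((Lam p N) ^ (e - 2 * i))⁻¹
        ≤ (E p k ψ A (((p : ZMod (p ^ k)) ^ i) ^ 2 • b)).re :=
      (abs_le.1 ((Complex.abs_re_le_norm _).trans h6)).1
    have h8 : ((Lam p N) ^ (e - i))⁻¹ = ((Lam p N) ^ i)⁻¹ * ((Lam p N) ^ (e - 2 * i))⁻¹ := by
      rw [← mul_inv, ← pow_add]
      congr 2
      omega
    rw [h8, ← mul_neg]
    exact mul_le_mul_of_nonneg_left h7 (by positivity)
  rw [h1]
  linarith

/-- the transform of one block is real if the block is isometric to its negative. -/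
theorem F_im (U : Matrix (Fin N) (Fin N) (ZMod (p ^ k))) (hU : IsUnit U.det)
    (h : ∀ t x, Q (A t) (U.mulVec x) = - Q (A t) x) (b : Fin s → ZMod (p ^ k)) :
    (F p k ψ A b).im = 0 := by
  unfold F
  rw [Complex.im_sum]
  refine sum_eq_zero fun i _ => ?_
  rw [Complex.im_ofReal_mul, E_im p k ψ A U hU h, mul_zero]

theorem F_zero_re : 1 ≤ (F p k ψ A 0).re := by
  have hL : 0 < Lam p N := lt_of_lt_of_le one_pos (Lam_one_le p N hp.out.one_le)
  have hF : (F p k ψ A 0).re = ∑ i ∈ range (k + 1), ((Lam p N) ^ i)⁻¹ := by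
    unfold F
    rw [Complex.re_sum]
    refine sum_congr rfl fun i _ => ?_
    rw [Complex.re_ofReal_mul, smul_zero, E_zero, Complex.one_re, mul_one]
  rw [hF]
  have h2 : ((Lam p N) ^ 0)⁻¹ ≤ ∑ i ∈ range (k + 1), ((Lam p N) ^ i)⁻¹ :=
    single_le_sum (f := fun i => ((Lam p N) ^ i)⁻¹) (fun i _ => by positivity)
      (mem_range.2 (Nat.succ_pos k))
  simpa using h2

/-- real part of a product all of whose factors but one are real. -/
theorem re_prod_eq {m : ℕ} (z : Fin m → ℂ) (j0 : Fin m) (hz : ∀ j, j ≠ j0 → (z j).im = 0) :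
    (∏ j, z j).re = ∏ j, (z j).re := by
  rw [← mul_prod_erase univ z (mem_univ j0), ← mul_prod_erase univ (fun j => (z j).re)
    (mem_univ j0)]
  have h1 : ∏ j ∈ univ.erase j0, z j = ((∏ j ∈ univ.erase j0, (z j).re : ℝ) : ℂ) := by
    rw [Complex.ofReal_prod]
    refine prod_congr rfl fun j hj => ?_
    apply Complex.ext
    · simp
    · rw [hz j (ne_of_mem_erase hj)]
      simp
  rw [h1, mul_comm, Complex.re_ofReal_mul, mul_comm]

end

end MPc77682.DB
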