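import Pool.Agent.Lib.MP_c77682_nt.DB.Fin3

/-!
Fourier positivity: the weighted number of zeros modulo `p^k` of a system built from blocks.
-/

set_option autoImplicit false
set_option linter.unusedSectionVars false

namespace MPc77682.DB

open Finset

section
variable (p k : ℕ) [hp : Fact p.Prime]

/-- weight of a sample `(i, y)` of a block -/
noncomputable def W (N : ℕ) (ω : Fin (k + 1) × (Fin N → ZMod (p ^ k))) : ℝ :=
  ((Lam p N) ^ (ω.1 : ℕ))⁻¹ * (((p : ℝ) ^ k) ^ N)⁻¹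

/-- point of a sample `(i, y)` of a block -/
def X {N : ℕ} (ω : Fin (k + 1) × (Fin N → ZMod (p ^ k))) : Fin N → ZMod (p ^ k) :=
  ((p : ZMod (p ^ k)) ^ (ω.1 : ℕ)) • ω.2

theorem W_nonneg (N : ℕ) (ω : Fin (k + 1) × (Fin N → ZMod (p ^ k))) : 0 ≤ W p k N ω := by
  have hL : 0 < Lam p N := lt_of_lt_of_le one_pos (Lam_one_le p N hp.out.one_le)
  unfold W
  positivity

theorem F_eq_sum (ψ : AddChar (ZMod (p ^ k)) ℂ) {N s : ℕ}
    (A : Fin s → Matrix (Fin N) (Fin N) (ZMod (p ^ k))) (b : Fin s → ZMod (p ^ k)) :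
    ∑ ω : Fin (k + 1) × (Fin N → ZMod (p ^ k)), (W p k N ω : ℂ) * ψ (Q (Sb A b) (X p k ω))
      = F p k ψ A b := by
  rw [Fintype.sum_prod_type]
  unfold F
  rw [← Fin.sum_univ_eq_sum_range (fun i => ((((Lam p N) ^ i)⁻¹ : ℝ) : ℂ) *
    E p k ψ A (((p : ZMod (p ^ k)) ^ i) ^ 2 • b))]
  refine sum_congr rfl fun i _ => ?_
  unfold E G W X
  rw [mul_sum, mul_sum]
  refine sum_congr rfl fun y _ => ?_
  rw [Q_smul_vec, Sb_smul]
  push_cast
  ring

theorem block_upper (N l : ℕ) (hl : l ≤ k) :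
    ∑ ω : Fin (k + 1) × (Fin N → ZMod (p ^ k)),
      (if ∀ u, p ^ l ∣ (X p k ω u).val then W p k N ω else 0)
      ≤ ((k : ℝ) + 1) * ((Lam p N) ^ l)⁻¹ := by
  have hL1 : 1 ≤ Lam p N := Lam_one_le p N hp.out.one_le
  have hL : 0 < Lam p N := lt_of_lt_of_le one_pos hL1
  have hppos : (0 : ℝ) < p := by exact_mod_cast hp.out.pos
  rw [Fintype.sum_prod_type]
  have hterm : ∀ i : Fin (k + 1), ∑ y : Fin N → ZMod (p ^ k),
      (if ∀ u, p ^ l ∣ (X p k (i, y) u).val then W p k N (i, y) else 0)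
      ≤ ((Lam p N) ^ l)⁻¹ := by
    intro i
    rw [← sum_filter]
    have hW : ∀ y : Fin N → ZMod (p ^ k), W p k N (i, y)
        = ((Lam p N) ^ (i : ℕ))⁻¹ * (((p : ℝ) ^ k) ^ N)⁻¹ := fun y => rfl
    simp_rw [hW]
    rw [sum_const, nsmul_eq_mul]
    rcases le_or_gt (i : ℕ) l with hil | hil
    · have hc : ((univ.filter (fun y : Fin N → ZMod (p ^ k) =>
          ∀ u, p ^ l ∣ (X p k (i, y) u).val)).card : ℝ) ≤ ((p : ℝ) ^ (k - (l - (i : ℕ)))) ^ N := by
        have h1 : (univ.filter (fun y : Fin N → ZMod (p ^ k) =>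
          ∀ u, p ^ l ∣ (X p k (i, y) u).val)).card ≤ (p ^ (k - (l - (i : ℕ)))) ^ N := by
          refine le_trans (card_le_card ?_) (card_vec_dvd_le p k (j := l - (i : ℕ)) (by omega) N)
          intro y hy
          rw [mem_filter] at hy ⊢
          refine ⟨mem_univ _, fun u => ?_⟩
          have h2 := hy.2 u
          have h3 : p ^ (k - (k - l)) ∣ (X p k (i, y) u).val := by
            rwa [Nat.sub_sub_self hl]
          rw [← pow_mul_eq_zero_iff p k (Nat.sub_le k l)] at h3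
          have hX : X p k (i, y) u = ((p : ZMod (p ^ k)) ^ (i : ℕ)) * y u := rfl
          rw [hX, ← mul_assoc, ← pow_add,
            pow_mul_eq_zero_iff p k (by omega)] at h3
          rwa [show k - (k - l + (i : ℕ)) = l - (i : ℕ) by omega] at h3
        exact_mod_cast h1
      have h4 : (((p : ℝ) ^ (k - (l - (i : ℕ)))) ^ N) *
          (((Lam p N) ^ (i : ℕ))⁻¹ * (((p : ℝ) ^ k) ^ N)⁻¹)
          = ((Lam p N) ^ (i : ℕ))⁻¹ * ((((p : ℝ) ^ (l - (i : ℕ))) ^ N)⁻¹) := by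
        have h3 : ((p : ℝ) ^ k) ^ N
            = ((p : ℝ) ^ (l - (i : ℕ))) ^ N * ((p : ℝ) ^ (k - (l - (i : ℕ)))) ^ N := by
          rw [← mul_pow, ← pow_add]
          congr 2
          omega
        rw [h3]
        have ha : ((p : ℝ) ^ (l - (i : ℕ))) ^ N ≠ 0 := by positivity
        have hb : ((p : ℝ) ^ (k - (l - (i : ℕ)))) ^ N ≠ 0 := by positivity
        have hc : ((Lam p N) ^ (i : ℕ)) ≠ 0 := by positivity
        field_simp
      calc _ ≤ (((p : ℝ) ^ (k - (l - (i : ℕ)))) ^ N) *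
          (((Lam p N) ^ (i : ℕ))⁻¹ * (((p : ℝ) ^ k) ^ N)⁻¹) :=
            mul_le_mul_of_nonneg_right hc (by positivity)
        _ = ((Lam p N) ^ (i : ℕ))⁻¹ * ((((p : ℝ) ^ (l - (i : ℕ))) ^ N)⁻¹) := h4
        _ = (((Lam p N) ^ (i : ℕ)) * ((Lam p N) ^ (l - (i : ℕ))) ^ 2)⁻¹ := by
            rw [Lam_sq, mul_inv]
        _ ≤ ((Lam p N) ^ l)⁻¹ := by
            apply inv_anti₀ (by positivity)
            rw [← pow_mul, ← pow_add]
            exact pow_le_pow_right₀ hL1 (by omega)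
    · have hc : ((univ.filter (fun y : Fin N → ZMod (p ^ k) =>
          ∀ u, p ^ l ∣ (X p k (i, y) u).val)).card : ℝ) ≤ ((p : ℝ) ^ k) ^ N := by
        have h1 : (univ.filter (fun y : Fin N → ZMod (p ^ k) =>
          ∀ u, p ^ l ∣ (X p k (i, y) u).val)).card ≤ (p ^ k) ^ N := by
          refine (card_filter_le _ _).trans (le_of_eq ?_)
          rw [card_univ, Fintype.card_fun, ZMod.card, Fintype.card_fin]
        exact_mod_cast h1
      calc _ ≤ (((p : ℝ) ^ k) ^ N) * (((Lam p N) ^ (i : ℕ))⁻¹ * (((p : ℝ) ^ k) ^ N)⁻¹) :=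
            mul_le_mul_of_nonneg_right hc (by positivity)
        _ = ((Lam p N) ^ (i : ℕ))⁻¹ := by
            have hb : ((p : ℝ) ^ k) ^ N ≠ 0 := by positivity
            have hc : ((Lam p N) ^ (i : ℕ)) ≠ 0 := by positivity
            field_simp
        _ ≤ ((Lam p N) ^ l)⁻¹ := by
            apply inv_anti₀ (by positivity)
            exact pow_le_pow_right₀ hL1 hil.le
  calc _ ≤ ∑ i : Fin (k + 1), ((Lam p N) ^ l)⁻¹ := sum_le_sum fun i _ => hterm i
    _ = ((k : ℝ) + 1) * ((Lam p N) ^ l)⁻¹ := by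
        rw [sum_const, card_univ, Fintype.card_fin, nsmul_eq_mul]
        push_cast
        ring

variable {m r : ℕ} (N s : Fin m → ℕ)
  (A : (j : Fin m) → Fin (s j) → Matrix (Fin (N j)) (Fin (N j)) (ZMod (p ^ k)))
  (C : (j : Fin m) → Fin r → Fin (s j) → ZMod (p ^ k))

/-- the system of `r` quadratic forms built from the blocks. -/
def f (x : (j : Fin m) → Fin (N j) → ZMod (p ^ k)) (i : Fin r) : ZMod (p ^ k) :=
  ∑ j, ∑ t, C j i t * Q (A j t) (x j)

/-- the coefficient vector of block `j` in the combination `a` of the forms -/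
def bb (a : Fin r → ZMod (p ^ k)) (j : Fin m) (t : Fin (s j)) : ZMod (p ^ k) :=
  ∑ i, a i * C j i t

/-- weighted number of zeros. -/
noncomputable def T : ℝ :=
  ∑ ω : (j : Fin m) → Fin (k + 1) × (Fin (N j) → ZMod (p ^ k)),
    if f p k N s A C (fun j => X p k (ω j)) = 0 then ∏ j, W p k (N j) (ω j) else 0

theorem dot_f (a : Fin r → ZMod (p ^ k)) (x : (j : Fin m) → Fin (N j) → ZMod (p ^ k)) :
    a ⬝ᵥ f p k N s A C x = ∑ j, Q (Sb (A j) (bb p k s C a j)) (x j) := by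
  unfold dotProduct f bb
  simp_rw [Q_Sb, mul_sum, sum_mul]
  rw [sum_comm]
  refine sum_congr rfl fun j _ => ?_
  rw [sum_comm]
  refine sum_congr rfl fun t _ => ?_
  refine sum_congr rfl fun i _ => ?_
  ring

theorem T_eq (ψ : AddChar (ZMod (p ^ k)) ℂ) (hψ : ψ.IsPrimitive) :
    (T p k N s A C : ℂ) = ((((p : ℝ) ^ k) ^ r)⁻¹ : ℝ) *
      ∑ a : Fin r → ZMod (p ^ k), ∏ j, F p k ψ (A j) (bb p k s C a j) := by
  have h1 : ∀ a : Fin r → ZMod (p ^ k), ∏ j, F p k ψ (A j) (bb p k s C a j)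
      = ∑ ω : (j : Fin m) → Fin (k + 1) × (Fin (N j) → ZMod (p ^ k)),
        (∏ j, (W p k (N j) (ω j) : ℂ)) * ψ (a ⬝ᵥ f p k N s A C (fun j => X p k (ω j))) := by
    intro a
    simp_rw [← F_eq_sum]
    rw [prod_univ_sum, Fintype.piFinset_univ]
    refine sum_congr rfl fun ω _ => ?_
    rw [prod_mul_distrib]
    congr 1
    rw [dot_f]
    have h : ∀ s' : Finset (Fin m), ψ (∑ j ∈ s', Q (Sb (A j) (bb p k s C a j)) (X p k (ω j)))
        = ∏ j ∈ s', ψ (Q (Sb (A j) (bb p k s C a j)) (X p k (ω j))) := by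
      intro s'
      induction s' using Finset.cons_induction with
      | empty => simp
      | cons a s ha ih => rw [sum_cons, prod_cons, AddChar.map_add_eq_mul, ih]
    exact (h univ).symm
  simp_rw [h1]
  rw [sum_comm]
  unfold T
  rw [Complex.ofReal_sum, mul_sum]
  refine sum_congr rfl fun ω _ => ?_
  rw [← mul_sum, sum_lin ψ hψ]
  have hp0 : (((p : ℂ) ^ k) ^ r) ≠ 0 := by
    apply pow_ne_zero
    apply pow_ne_zero
    exact_mod_cast hp.out.ne_zero
  split_ifs with h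
  · rw [ZMod.card]
    push_cast
    field_simp
  · simp

theorem T_lower
    (hns : ∀ j, ∀ b0 : Fin (s j) → ZMod (p ^ k), (∃ t, IsUnit (b0 t)) →
      IsUnit (Sb (A j) b0 + (Sb (A j) b0).transpose).det)
    (j0 : Fin m)
    (hsym : ∀ j, j ≠ j0 → ∃ U : Matrix (Fin (N j)) (Fin (N j)) (ZMod (p ^ k)), IsUnit U.det ∧
      ∀ t x, Q (A j t) (U.mulVec x) = - Q (A j t) x) :
    (((p : ℝ) ^ k) ^ r)⁻¹ ≤ T p k N s A C := by
  have hψ : (ZMod.stdAddChar (N := p ^ k)).IsPrimitive := ZMod.isPrimitive_stdAddChar _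
  set ψ := ZMod.stdAddChar (N := p ^ k) with hψdef
  have h2 : T p k N s A C = (((p : ℝ) ^ k) ^ r)⁻¹ *
      ∑ a : Fin r → ZMod (p ^ k), ∏ j, (F p k ψ (A j) (bb p k s C a j)).re := by
    have h3 := congrArg Complex.re (T_eq p k N s A C ψ hψ)
    rw [Complex.ofReal_re, Complex.re_ofReal_mul, Complex.re_sum] at h3
    rw [h3]
    congr 1
    refine sum_congr rfl fun a _ => ?_
    apply re_prod_eq _ j0
    intro j hj
    obtain ⟨U, hU, h⟩ := hsym j hj
    exact F_im p k ψ (A j) U hU h _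
  rw [h2]
  have hp0 : 0 < (((p : ℝ) ^ k) ^ r)⁻¹ := by
    have : (0 : ℝ) < p := by exact_mod_cast hp.out.pos
    positivity
  have h4 : (1 : ℝ) ≤ ∑ a : Fin r → ZMod (p ^ k), ∏ j, (F p k ψ (A j) (bb p k s C a j)).re := by
    have h5 : (1 : ℝ) ≤ ∏ j, (F p k ψ (A j) (bb p k s C 0 j)).re := by
      have h6 : ∏ _j : Fin m, (1 : ℝ) ≤ ∏ j, (F p k ψ (A j) (bb p k s C 0 j)).re := by
        refine prod_le_prod (fun j _ => zero_le_one) fun j _ => ?_
        have h7 : bb p k s C 0 j = 0 := by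
          funext t
          simp [bb]
        rw [h7]
        exact F_zero_re p k ψ (A j)
      rwa [prod_const_one] at h6
    refine h5.trans ?_
    exact single_le_sum (f := fun a => ∏ j, (F p k ψ (A j) (bb p k s C a j)).re)
      (fun a _ => prod_nonneg fun j _ => F_re_nonneg p k ψ (A j) hψ (hns j) _)
      (mem_univ 0)
  calc (((p : ℝ) ^ k) ^ r)⁻¹ = (((p : ℝ) ^ k) ^ r)⁻¹ * 1 := (mul_one _).symm
    _ ≤ _ := mul_le_mul_of_nonneg_left h4 hp0.le

theorem T_upper (l : ℕ) (hl : l ≤ k)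
    (hz : ∀ x : (j : Fin m) → Fin (N j) → ZMod (p ^ k), f p k N s A C x = 0 →
      ∀ j u, p ^ l ∣ (x j u).val) :
    T p k N s A C ≤ ∏ j, (((k : ℝ) + 1) * ((Lam p (N j)) ^ l)⁻¹) := by
  have h1 : T p k N s A C ≤ ∑ ω : (j : Fin m) → Fin (k + 1) × (Fin (N j) → ZMod (p ^ k)),
      ∏ j, (if ∀ u, p ^ l ∣ (X p k (ω j) u).val then W p k (N j) (ω j) else 0) := by
    unfold T
    refine sum_le_sum fun ω _ => ?_
    split_ifs with h
    · have h2 := hz _ h
      refine le_of_eq ?_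
      refine prod_congr rfl fun j _ => ?_
      rw [if_pos (h2 j)]
    · refine prod_nonneg fun j _ => ?_
      split_ifs
      · exact W_nonneg p k _ _
      · exact le_rfl
  refine h1.trans ?_
  have h3 : ∑ ω : (j : Fin m) → Fin (k + 1) × (Fin (N j) → ZMod (p ^ k)),
      ∏ j, (if ∀ u, p ^ l ∣ (X p k (ω j) u).val then W p k (N j) (ω j) else 0)
      = ∏ j, ∑ ω : Fin (k + 1) × (Fin (N j) → ZMod (p ^ k)),
        (if ∀ u, p ^ l ∣ (X p k ω u).val then W p k (N j) ω else 0) := by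
    rw [prod_univ_sum, Fintype.piFinset_univ]
  rw [h3]
  refine prod_le_prod ?_ ?_
  · intro j _
    refine sum_nonneg fun ω _ => ?_
    split_ifs
    · exact W_nonneg p k _ _
    · exact le_rfl
  · intro j _
    exact block_upper p k (N j) l hl

/-- the counting inequality for block systems all whose zeros modulo `p^k` are divisible by
`p^l`. -/
theorem count_main
    (hns : ∀ j, ∀ b0 : Fin (s j) → ZMod (p ^ k), (∃ t, IsUnit (b0 t)) →
      IsUnit (Sb (A j) b0 + (Sb (A j) b0).transpose).det)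
    (j0 : Fin m)
    (hsym : ∀ j, j ≠ j0 → ∃ U : Matrix (Fin (N j)) (Fin (N j)) (ZMod (p ^ k)), IsUnit U.det ∧
      ∀ t x, Q (A j t) (U.mulVec x) = - Q (A j t) x)
    (l : ℕ) (hl : l ≤ k)
    (hz : ∀ x : (j : Fin m) → Fin (N j) → ZMod (p ^ k), f p k N s A C x = 0 →
      ∀ j u, p ^ l ∣ (x j u).val) :
    p ^ (l * ∑ j, N j) ≤ (k + 1) ^ (2 * m) * p ^ (2 * (k * r)) := by
  have h1 := (T_lower p k N s A C hns j0 hsym).trans (T_upper p k N s A C l hl hz)
  have hppos : (0 : ℝ) < p := by exact_mod_cast hp.out.pos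
  have h2 : ∏ j, (((k : ℝ) + 1) * ((Lam p (N j)) ^ l)⁻¹)
      = ((k : ℝ) + 1) ^ m * ((Real.sqrt p) ^ (l * ∑ j, N j))⁻¹ := by
    rw [prod_mul_distrib, prod_const, card_univ, Fintype.card_fin]
    congr 1
    rw [prod_inv_distrib]
    congr 1
    unfold Lam
    simp_rw [← pow_mul]
    rw [prod_pow_eq_pow_sum]
    congr 1
    rw [mul_sum]
    exact sum_congr rfl fun j _ => mul_comm _ _
  rw [h2] at h1
  have hs : 0 < Real.sqrt p := Real.sqrt_pos.2 hppos
  have h3 : (Real.sqrt p) ^ (l * ∑ j, N j) ≤ ((k : ℝ) + 1) ^ m * ((p : ℝ) ^ k) ^ r := by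
    have ha : 0 < (Real.sqrt p) ^ (l * ∑ j, N j) := by positivity
    have hb : 0 < ((p : ℝ) ^ k) ^ r := by positivity
    have h4 : (((p : ℝ) ^ k) ^ r)⁻¹ * (((p : ℝ) ^ k) ^ r * (Real.sqrt p) ^ (l * ∑ j, N j))
        ≤ (((k : ℝ) + 1) ^ m * ((Real.sqrt p) ^ (l * ∑ j, N j))⁻¹) *
          (((p : ℝ) ^ k) ^ r * (Real.sqrt p) ^ (l * ∑ j, N j)) :=
      mul_le_mul_of_nonneg_right h1 (by positivity)
    have h5 : (((p : ℝ) ^ k) ^ r)⁻¹ * (((p : ℝ) ^ k) ^ r * (Real.sqrt p) ^ (l * ∑ j, N j))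
        = (Real.sqrt p) ^ (l * ∑ j, N j) := by
      rw [← mul_assoc, inv_mul_cancel₀ hb.ne', one_mul]
    have h6 : (((k : ℝ) + 1) ^ m * ((Real.sqrt p) ^ (l * ∑ j, N j))⁻¹) *
          (((p : ℝ) ^ k) ^ r * (Real.sqrt p) ^ (l * ∑ j, N j))
        = ((k : ℝ) + 1) ^ m * ((p : ℝ) ^ k) ^ r := by
      field_simp
    rw [h5, h6] at h4
    exact h4
  have h7 : ((Real.sqrt p) ^ (l * ∑ j, N j)) ^ 2 ≤ (((k : ℝ) + 1) ^ m * ((p : ℝ) ^ k) ^ r) ^ 2 :=
    pow_le_pow_left₀ (by positivity) h3 2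
  rw [← pow_mul, mul_comm (l * ∑ j, N j) 2, pow_mul, Real.sq_sqrt hppos.le, mul_pow, ← pow_mul,
    ← pow_mul, ← pow_mul, mul_comm m 2, show k * (r * 2) = 2 * (k * r) by ring] at h7
  exact_mod_cast h7

end

end MPc77682.DB
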