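import Pool.Agent.Lib.MP_c77682_nt.DB.Fin4

/-!
Fourier positivity: the `p`-adic part (compactness, reduction modulo `p^k`, conclusion over `ℤ_p`).
-/

set_option autoImplicit false
set_option linter.unusedSectionVars false

namespace MPc77682.DB

open Finset

/-- the system of `r` quadratic forms built from the blocks, over any commutative ring. -/
def fR {R : Type*} [CommRing R] {m r : ℕ} (N s : Fin m → ℕ)
    (A : (j : Fin m) → Fin (s j) → Matrix (Fin (N j)) (Fin (N j)) R)
    (C : (j : Fin m) → Fin r → Fin (s j) → R) (x : (j : Fin m) → Fin (N j) → R) (i : Fin r) : R :=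
  ∑ j, ∑ t, C j i t * Q (A j t) (x j)

theorem fR_smul {R : Type*} [CommRing R] {m r : ℕ} (N s : Fin m → ℕ)
    (A : (j : Fin m) → Fin (s j) → Matrix (Fin (N j)) (Fin (N j)) R)
    (C : (j : Fin m) → Fin r → Fin (s j) → R) (x : (j : Fin m) → Fin (N j) → R) (c : R)
    (i : Fin r) : fR N s A C (c • x) i = c ^ 2 * fR N s A C x i := by
  unfold fR
  rw [mul_sum]
  refine sum_congr rfl fun j _ => ?_
  rw [mul_sum]
  refine sum_congr rfl fun t _ => ?_
  rw [Pi.smul_apply, Q_smul_vec]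
  unfold Q
  rw [Matrix.smul_mulVec, dotProduct_smul, smul_eq_mul]
  ring

theorem map_Q {R S : Type*} [CommRing R] [CommRing S] (φ : R →+* S) {N : ℕ}
    (M : Matrix (Fin N) (Fin N) R) (x : Fin N → R) :
    φ (Q M x) = Q (M.map φ) (fun u => φ (x u)) := by
  unfold Q dotProduct Matrix.mulVec dotProduct
  rw [map_sum]
  refine sum_congr rfl fun u _ => ?_
  rw [map_mul, map_sum]
  congr 1
  refine sum_congr rfl fun v _ => ?_
  rw [map_mul]
  rfl

theorem map_fR {R S : Type*} [CommRing R] [CommRing S] (φ : R →+* S) {m r : ℕ} (N s : Fin m → ℕ)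
    (A : (j : Fin m) → Fin (s j) → Matrix (Fin (N j)) (Fin (N j)) R)
    (C : (j : Fin m) → Fin r → Fin (s j) → R) (x : (j : Fin m) → Fin (N j) → R) (i : Fin r) :
    φ (fR N s A C x i) = fR N s (fun j t => (A j t).map φ) (fun j i t => φ (C j i t))
      (fun j u => φ (x j u)) i := by
  unfold fR
  rw [map_sum]
  refine sum_congr rfl fun j _ => ?_
  rw [map_sum]
  refine sum_congr rfl fun t _ => ?_
  rw [map_mul, map_Q]

section
variable (p : ℕ) [hp : Fact p.Prime] {m r : ℕ} (N s : Fin m → ℕ)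
  (A : (j : Fin m) → Fin (s j) → Matrix (Fin (N j)) (Fin (N j)) ℤ_[p])
  (C : (j : Fin m) → Fin r → Fin (s j) → ℤ_[p])

theorem continuous_fR : Continuous (fun x => fR N s A C x) := by
  unfold fR Q dotProduct Matrix.mulVec dotProduct
  fun_prop

/-- compactness: an anisotropic system is bounded away from zero on primitive vectors. -/
theorem exists_level (h : ∀ x, fR N s A C x = 0 → x = 0) :
    ∃ c : ℕ, ∀ x : (j : Fin m) → Fin (N j) → ℤ_[p], (∃ j u, ¬ (p : ℤ_[p]) ∣ x j u) →
      ∃ i, ¬ (p : ℤ_[p]) ^ c ∣ fR N s A C x i := by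
  by_contra hcon
  push Not at hcon
  have hf := continuous_fR p N s A C
  let D : ℕ → Set ((j : Fin m) → Fin (N j) → ℤ_[p]) :=
    fun c => {x | ∃ j u, ¬ (p : ℤ_[p]) ∣ x j u} ∩ {x | ∀ i, (p : ℤ_[p]) ^ c ∣ fR N s A C x i}
  have hA : IsClosed {x : (j : Fin m) → Fin (N j) → ℤ_[p] | ∃ j u, ¬ (p : ℤ_[p]) ∣ x j u} := by
    have : {x : (j : Fin m) → Fin (N j) → ℤ_[p] | ∃ j u, ¬ (p : ℤ_[p]) ∣ x j u}
        = ⋃ j, ⋃ u, {x | 1 ≤ ‖x j u‖} := by
      ext x
      simp only [Set.mem_ofPred_eq, Set.mem_iUnion]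
      refine exists_congr fun j => exists_congr fun u => ?_
      rw [← PadicInt.norm_lt_one_iff_dvd, not_lt]
    rw [this]
    exact isClosed_iUnion_of_finite fun j => isClosed_iUnion_of_finite fun u =>
      isClosed_le continuous_const (((continuous_apply u).comp (continuous_apply j)).norm)
  have hB : ∀ c : ℕ, IsClosed {x : (j : Fin m) → Fin (N j) → ℤ_[p] |
      ∀ i, (p : ℤ_[p]) ^ c ∣ fR N s A C x i} := by
    intro c
    have : {x : (j : Fin m) → Fin (N j) → ℤ_[p] | ∀ i, (p : ℤ_[p]) ^ c ∣ fR N s A C x i}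
        = ⋂ i, {x | ‖fR N s A C x i‖ ≤ (p : ℝ) ^ (-(c : ℤ))} := by
      ext x
      simp only [Set.mem_ofPred_eq, Set.mem_iInter]
      refine forall_congr' fun i => ?_
      rw [PadicInt.norm_le_pow_iff_mem_span_pow, Ideal.mem_span_singleton]
    rw [this]
    exact isClosed_iInter fun i =>
      isClosed_le (((continuous_apply i).comp hf).norm) continuous_const
  have hne : (⋂ c, D c).Nonempty := by
    refine IsCompact.nonempty_iInter_of_sequence_nonempty_isCompact_isClosed D ?_ ?_ ?_ ?_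
    · intro c x hx
      refine ⟨hx.1, fun i => ?_⟩
      exact (pow_dvd_pow _ (Nat.le_succ c)).trans (hx.2 i)
    · intro c
      obtain ⟨x, hx, hx'⟩ := hcon c
      exact ⟨x, hx, hx'⟩
    · exact (hA.inter (hB 0)).isCompact
    · intro c
      exact hA.inter (hB c)
  obtain ⟨x, hx⟩ := hne
  rw [Set.mem_iInter] at hx
  have hx0 : fR N s A C x = 0 := by
    funext i
    have hk : ∀ c : ℕ, ‖fR N s A C x i‖ ≤ (p : ℝ) ^ (-(c : ℤ)) := by
      intro c
      rw [PadicInt.norm_le_pow_iff_mem_span_pow, Ideal.mem_span_singleton]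
      exact (hx c).2 i
    have hlim : Filter.Tendsto (fun c : ℕ => (p : ℝ) ^ (-(c : ℤ))) Filter.atTop (nhds 0) := by
      have hp1 : (1 : ℝ) < p := by exact_mod_cast hp.out.one_lt
      have := tendsto_pow_atTop_nhds_zero_of_lt_one (r := (p : ℝ)⁻¹) (by positivity)
        (inv_lt_one_of_one_lt₀ hp1)
      refine this.congr fun c => ?_
      rw [zpow_neg, zpow_natCast, inv_pow]
    have h0 : ‖fR N s A C x i‖ ≤ 0 := ge_of_tendsto' hlim hk
    simpa using norm_le_zero_iff.mp h0
  have hxz : x = 0 := h x hx0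
  obtain ⟨j, u, hi⟩ := (hx 0).1
  apply hi
  rw [hxz]
  simp

theorem dvd_of_level {c : ℕ}
    (hc : ∀ x : (j : Fin m) → Fin (N j) → ℤ_[p], (∃ j u, ¬ (p : ℤ_[p]) ∣ x j u) →
      ∃ i, ¬ (p : ℤ_[p]) ^ c ∣ fR N s A C x i) (l : ℕ) :
    ∀ x : (j : Fin m) → Fin (N j) → ℤ_[p],
      (∀ i, (p : ℤ_[p]) ^ (2 * l + c) ∣ fR N s A C x i) → ∀ j u, (p : ℤ_[p]) ^ l ∣ x j u := by
  have hp0 : (p : ℤ_[p]) ≠ 0 := by exact_mod_cast hp.out.ne_zero
  induction l with
  | zero => intro x _ j u; simp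
  | succ l ih =>
    intro x hx
    have h1 : ∀ j u, (p : ℤ_[p]) ^ l ∣ x j u := by
      apply ih
      intro i
      exact (pow_dvd_pow _ (by omega)).trans (hx i)
    choose y hy using h1
    have hxy : x = ((p : ℤ_[p]) ^ l) • (fun j u => y j u) := by
      funext j u
      rw [hy j u]
      rfl
    have h2 : ∀ i, (p : ℤ_[p]) ^ c ∣ fR N s A C (fun j u => y j u) i := by
      intro i
      have h3 := hx i
      rw [hxy, fR_smul, ← pow_mul, show 2 * (l + 1) + c = l * 2 + (2 + c) by ring, pow_add] at h3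
      have h4 := (mul_dvd_mul_iff_left (pow_ne_zero (l * 2) hp0)).1 h3
      exact (pow_dvd_pow _ (by omega)).trans h4
    have h5 : ∀ j u, (p : ℤ_[p]) ∣ y j u := by
      by_contra hcon
      push Not at hcon
      obtain ⟨i, hi⟩ := hc (fun j u => y j u) hcon
      exact hi (h2 i)
    intro j u
    rw [hy j u, pow_succ]
    exact mul_dvd_mul_left _ (h5 j u)

/-- the condition of nonsingularity passes to `ℤ/p^k`. -/
theorem ns_mod {N s : ℕ} (A : Fin s → Matrix (Fin N) (Fin N) ℤ_[p])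
    (hns : ∀ a : Fin s → ℤ_[p], (∃ t, IsUnit (a t)) →
      IsUnit (∑ t, a t • (A t + (A t).transpose)).det) (k : ℕ)
    (b : Fin s → ZMod (p ^ k)) (hb : ∃ t, IsUnit (b t)) :
    IsUnit (Sb (fun t => (A t).map (PadicInt.toZModPow k)) b +
      (Sb (fun t => (A t).map (PadicInt.toZModPow k)) b).transpose).det := by
  have hsurj : Function.Surjective (PadicInt.toZModPow (p := p) k) :=
    ZMod.ringHom_surjective _
  rcases Nat.eq_zero_or_pos k with hk | hk
  · subst hk
    have : Subsingleton (ZMod (p ^ 0)) := by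
      rw [pow_zero]
      infer_instance
    exact isUnit_of_subsingleton _
  · have : Fact (1 < p ^ k) := ⟨Nat.one_lt_pow hk.ne' hp.out.one_lt⟩
    have hloc : IsLocalHom (PadicInt.toZModPow (p := p) k) := IsLocalHom.of_surjective _ hsurj
    choose a ha using fun t => hsurj (b t)
    have h1 : ∃ t, IsUnit (a t) := by
      obtain ⟨t, ht⟩ := hb
      refine ⟨t, ?_⟩
      rw [← ha t] at ht
      exact isUnit_of_map_unit _ _ ht
    have h2 := (hns a h1).map (PadicInt.toZModPow (p := p) k)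
    rw [RingHom.map_det] at h2
    convert h2 using 2
    ext u v
    simp only [Sb, Matrix.add_apply, Matrix.transpose_apply, Matrix.sum_apply, Matrix.smul_apply,
      Matrix.map_apply, smul_eq_mul, RingHom.mapMatrix_apply, map_sum, map_mul, map_add, ha,
      mul_add, sum_add_distrib]

theorem sym_mod {N s : ℕ} (A : Fin s → Matrix (Fin N) (Fin N) ℤ_[p])
    (hsym : ∃ U : Matrix (Fin N) (Fin N) ℤ_[p], IsUnit U.det ∧
      ∀ t x, Q (A t) (U.mulVec x) = - Q (A t) x) (k : ℕ) :
    ∃ U : Matrix (Fin N) (Fin N) (ZMod (p ^ k)), IsUnit U.det ∧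
      ∀ t x, Q ((A t).map (PadicInt.toZModPow k)) (U.mulVec x)
        = - Q ((A t).map (PadicInt.toZModPow k)) x := by
  have hsurj : Function.Surjective (PadicInt.toZModPow (p := p) k) :=
    ZMod.ringHom_surjective _
  obtain ⟨U, hU, h⟩ := hsym
  refine ⟨U.map (PadicInt.toZModPow k), ?_, ?_⟩
  · have h2 := hU.map (PadicInt.toZModPow (p := p) k)
    rw [RingHom.map_det] at h2
    exact h2
  · intro t x
    choose y hy using fun u => hsurj (x u)
    have hx : x = fun u => PadicInt.toZModPow k (y u) := (funext hy).symm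
    have h3 := congrArg (PadicInt.toZModPow (p := p) k) (h t y)
    rw [map_neg, map_Q, map_Q] at h3
    rw [hx]
    rw [← h3]
    congr 1
    funext u
    unfold Matrix.mulVec dotProduct
    rw [map_sum]
    refine sum_congr rfl fun v _ => ?_
    rw [map_mul]
    rfl

/-- the exponential beats the polynomial. -/
theorem exists_big (c r m : ℕ) : ∃ l : ℕ, (2 * l + c + 1) ^ (2 * m) * p ^ (2 * (c * r)) < p ^ l := by
  have hp1 : (1 : ℝ) < p := by exact_mod_cast hp.out.one_lt
  have h1 := tendsto_pow_const_div_const_pow_of_one_lt (2 * m) hp1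
  have h2 : ∀ᶠ l : ℕ in Filter.atTop, (l : ℝ) ^ (2 * m) / (p : ℝ) ^ l
      < (((c : ℝ) + 3) ^ (2 * m) * (p : ℝ) ^ (2 * (c * r)))⁻¹ := by
    apply h1.eventually_lt_const
    positivity
  obtain ⟨l, hl1, hl2⟩ := (h2.and (Filter.eventually_ge_atTop 1)).exists
  refine ⟨l, ?_⟩
  have hpl : (0 : ℝ) < (p : ℝ) ^ l := by positivity
  have hK : (0 : ℝ) < ((c : ℝ) + 3) ^ (2 * m) * (p : ℝ) ^ (2 * (c * r)) := by positivity
  rw [div_lt_iff₀ hpl, inv_mul_eq_div, lt_div_iff₀ hK] at hl1
  have h3 : (2 * l + c + 1) ^ (2 * m) * p ^ (2 * (c * r))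
      ≤ l ^ (2 * m) * ((c + 3) ^ (2 * m) * p ^ (2 * (c * r))) := by
    rw [show l ^ (2 * m) * ((c + 3) ^ (2 * m) * p ^ (2 * (c * r)))
      = (l * (c + 3)) ^ (2 * m) * p ^ (2 * (c * r)) by rw [mul_pow, mul_assoc]]
    apply Nat.mul_le_mul_right
    apply Nat.pow_le_pow_left
    nlinarith
  refine lt_of_le_of_lt h3 ?_
  exact_mod_cast hl1

/-- The theorem over `ℤ_p`. -/
theorem main_int
    (hns : ∀ j, ∀ a : Fin (s j) → ℤ_[p], (∃ t, IsUnit (a t)) →
      IsUnit (∑ t, a t • (A j t + (A j t).transpose)).det)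
    (j0 : Fin m)
    (hsym : ∀ j, j ≠ j0 → ∃ U : Matrix (Fin (N j)) (Fin (N j)) ℤ_[p], IsUnit U.det ∧
      ∀ t x, Q (A j t) (U.mulVec x) = - Q (A j t) x)
    (hn : 4 * r < ∑ j, N j) :
    ∃ x : (j : Fin m) → Fin (N j) → ℤ_[p], x ≠ 0 ∧ fR N s A C x = 0 := by
  by_contra hcon
  push Not at hcon
  have h0 : ∀ x, fR N s A C x = 0 → x = 0 := by
    intro x hx
    by_contra hne
    exact hcon x hne hx
  obtain ⟨c, hc⟩ := exists_level p N s A C h0
  obtain ⟨l, hl⟩ := exists_big p c r m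
  have hdvd := dvd_of_level p N s A C hc l
  have hsurj : Function.Surjective (PadicInt.toZModPow (p := p) (2 * l + c)) :=
    ZMod.ringHom_surjective _
  have h1 := count_main p (2 * l + c) N s
    (fun j t => (A j t).map (PadicInt.toZModPow (2 * l + c)))
    (fun j i t => PadicInt.toZModPow (2 * l + c) (C j i t))
    (fun j b0 hb0 => ns_mod p (A j) (hns j) (2 * l + c) b0 hb0) j0
    (fun j hj => sym_mod p (A j) (hsym j hj) (2 * l + c)) l (by omega) ?_
  · have h2 : p ^ (l * (4 * r + 1)) ≤ p ^ (l * ∑ j, N j) :=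
      Nat.pow_le_pow_right hp.out.pos (Nat.mul_le_mul_left l hn)
    have h3 := h2.trans h1
    have h4 : p ^ (l * (4 * r + 1)) = p ^ l * p ^ (4 * l * r) := by
      rw [← pow_add]
      congr 1
      ring
    have h5 : (2 * l + c + 1) ^ (2 * m) * p ^ (2 * ((2 * l + c) * r))
        = ((2 * l + c + 1) ^ (2 * m) * p ^ (2 * (c * r))) * p ^ (4 * l * r) := by
      rw [mul_assoc, ← pow_add]
      congr 2
      ring
    rw [h4, h5] at h3
    have h6 := Nat.le_of_mul_le_mul_right h3 (pow_pos hp.out.pos _)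
    omega
  · intro x hx
    choose y hy using fun j u => hsurj (x j u)
    have hfx : ∀ i, PadicInt.toZModPow (2 * l + c) (fR N s A C y i) = 0 := by
      intro i
      rw [map_fR]
      have h7 := congrFun hx i
      have h8 : (fun j u => PadicInt.toZModPow (2 * l + c) (y j u)) = x := by
        funext j u
        exact hy j u
      rw [h8]
      exact h7
    have hdv : ∀ i, (p : ℤ_[p]) ^ (2 * l + c) ∣ fR N s A C y i := by
      intro i
      have h9 : fR N s A C y i ∈ RingHom.ker (PadicInt.toZModPow (p := p) (2 * l + c)) := hfx i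
      rwa [PadicInt.ker_toZModPow, Ideal.mem_span_singleton] at h9
    have h10 := hdvd y hdv
    intro j u
    obtain ⟨z, hz⟩ := h10 j u
    have h11 : (p : ZMod (p ^ (2 * l + c))) ^ ((2 * l + c) - l) * x j u = 0 := by
      rw [← hy j u, hz, map_mul, map_pow, map_natCast, ← mul_assoc, ← pow_add,
        show 2 * l + c - l + l = 2 * l + c by omega, ← Nat.cast_pow, ZMod.natCast_self, zero_mul]
    rw [pow_mul_eq_zero_iff p _ (Nat.sub_le _ _)] at h11
    rwa [show 2 * l + c - (2 * l + c - l) = l by omega] at h11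

end

end MPc77682.DB
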