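import Pool.Agent.Lib.MP_c77682_nt.DB.Pad1

/-!
Fourier positivity: the theorem over `ℚ_p` and its two main special cases.
-/

set_option autoImplicit false
set_option linter.unusedSectionVars false

namespace MPc77682.DB

open Finset

theorem Q_eq {R : Type*} [CommRing R] {N : ℕ} (S : Matrix (Fin N) (Fin N) R) (x : Fin N → R) :
    Q S x = ∑ u, ∑ v, S u v * x u * x v := by
  unfold Q dotProduct Matrix.mulVec dotProduct
  refine sum_congr rfl fun u _ => ?_
  rw [mul_sum]
  refine sum_congr rfl fun v _ => ?_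
  ring

section
variable (p : ℕ) [hp : Fact p.Prime]

/-- the theorem over `ℚ_p`. -/
theorem main_padic {m r : ℕ} (N s : Fin m → ℕ)
    (A : (j : Fin m) → Fin (s j) → Matrix (Fin (N j)) (Fin (N j)) ℤ_[p])
    (hns : ∀ j, ∀ a : Fin (s j) → ℤ_[p], (∃ t, IsUnit (a t)) →
      IsUnit (∑ t, a t • (A j t + (A j t).transpose)).det)
    (j0 : Fin m)
    (hsym : ∀ j, j ≠ j0 → ∃ U : Matrix (Fin (N j)) (Fin (N j)) ℤ_[p], IsUnit U.det ∧
      ∀ t x, Q (A j t) (U.mulVec x) = - Q (A j t) x)
    (hn : 4 * r < ∑ j, N j) (C : (j : Fin m) → Fin r → Fin (s j) → ℚ_[p]) :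
    ∃ x : (j : Fin m) → Fin (N j) → ℚ_[p], x ≠ 0 ∧
      ∀ i, ∑ j, ∑ t, C j i t * ∑ u, ∑ v, (A j t u v : ℚ_[p]) * x j u * x j v = 0 := by
  have hp1 : (1 : ℝ) < p := by exact_mod_cast hp.out.one_lt
  obtain ⟨K, hK⟩ : ∃ K : ℕ, ∀ j i t, ‖C j i t‖ ≤ (p : ℝ) ^ K := by
    have hfin : (Set.range (fun w : (j : Fin m) × (Fin r × Fin (s j)) =>
      ‖C w.1 w.2.1 w.2.2‖)).Finite := Set.finite_range _
    obtain ⟨B, hB⟩ := hfin.bddAbove
    obtain ⟨K, hK⟩ := pow_unbounded_of_one_lt B hp1
    refine ⟨K, fun j i t => ?_⟩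
    exact (hB ⟨⟨j, (i, t)⟩, rfl⟩).trans hK.le
  have hint : ∀ j i t, ‖(p : ℚ_[p]) ^ K * C j i t‖ ≤ 1 := by
    intro j i t
    rw [norm_mul, norm_pow, Padic.norm_p, inv_pow]
    rw [inv_mul_le_iff₀ (by positivity), mul_one]
    exact hK j i t
  obtain ⟨x, hx0, hx⟩ := main_int p N s A
    (fun j i t => (⟨(p : ℚ_[p]) ^ K * C j i t, hint j i t⟩ : ℤ_[p])) hns j0 hsym hn
  refine ⟨fun j u => ((x j u : ℤ_[p]) : ℚ_[p]), ?_, ?_⟩
  · intro h
    apply hx0
    funext j u
    have h1 := congrFun (congrFun h j) u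
    exact PadicInt.coe_eq_zero.1 h1
  · intro i
    have h1 := map_fR (PadicInt.Coe.ringHom (p := p)) N s A
      (fun j i t => (⟨(p : ℚ_[p]) ^ K * C j i t, hint j i t⟩ : ℤ_[p])) x i
    rw [hx, Pi.zero_apply, map_zero] at h1
    have hpK : ((p : ℚ_[p]) ^ K) ≠ 0 := pow_ne_zero _ (by exact_mod_cast hp.out.ne_zero)
    apply (mul_right_injective₀ hpK)
    simp only [mul_zero]
    rw [h1]
    unfold fR
    rw [mul_sum]
    refine sum_congr rfl fun j _ => ?_
    rw [mul_sum]
    refine sum_congr rfl fun t _ => ?_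
    rw [Q_eq, ← mul_assoc]
    rfl

theorem isUnit_iff_toZMod (x : ℤ_[p]) : IsUnit x ↔ PadicInt.toZMod x ≠ 0 := by
  have h1 : PadicInt.toZMod x = 0 ↔ ¬ IsUnit x := by
    rw [← RingHom.mem_ker, PadicInt.ker_toZMod, IsLocalRing.mem_maximalIdeal]
    rfl
  rw [Ne, h1, not_not]

theorem norm_lt_one_iff_toZMod (x : ℤ_[p]) : ‖x‖ < 1 ↔ PadicInt.toZMod x = 0 := by
  have h1 : PadicInt.toZMod x = 0 ↔ ¬ IsUnit x := by
    rw [← RingHom.mem_ker, PadicInt.ker_toZMod, IsLocalRing.mem_maximalIdeal]
    rfl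
  rw [h1, PadicInt.not_isUnit_iff]

/-- Hensel's lemma for a polynomial of degree at most 2. -/
theorem hensel_quad (a b c x0 : ℤ_[p]) (h0 : PadicInt.toZMod (a * x0 ^ 2 + b * x0 + c) = 0)
    (h1 : IsUnit (2 * a * x0 + b)) : ∃ x, a * x ^ 2 + b * x + c = 0 := by
  let F : Polynomial ℤ_[p] := Polynomial.C a * Polynomial.X ^ 2 + Polynomial.C b * Polynomial.X
    + Polynomial.C c
  have hF : ∀ x, Polynomial.aeval x F = a * x ^ 2 + b * x + c := by
    intro x
    simp [F]
  have hF' : ∀ x, Polynomial.aeval x F.derivative = 2 * a * x + b := by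
    intro x
    simp [F]
    ring
  obtain ⟨z, hz, _⟩ := hensels_lemma (p := p) (F := F) (a := x0) (by
    rw [hF, hF', PadicInt.isUnit_iff.1 h1, one_pow, norm_lt_one_iff_toZMod]
    exact h0)
  exact ⟨z, by rw [← hF]; exact hz⟩

/-- every unramified binary norm form over `ℤ_p` represents `-1`. -/
theorem norm_neg_one (b e : ℤ_[p]) (hD : IsUnit (b ^ 2 - 4 * e)) :
    ∃ u v : ℤ_[p], u ^ 2 + b * u * v + e * v ^ 2 = -1 := by
  have hcases : p = 2 ∨ p ≠ 2 := eq_or_ne p 2
  rcases hcases with h2 | h2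
  · have hb : IsUnit b := by
      rw [isUnit_iff_toZMod] at hD ⊢
      intro h
      apply hD
      have h4 : (4 : ZMod p) = 0 := by
        have h5 : ((4 : ℕ) : ZMod p) = 0 := by
          rw [ZMod.natCast_eq_zero_iff, h2]
          norm_num
        exact_mod_cast h5
      rw [map_sub, map_pow, map_mul, h, map_ofNat, h4]
      ring
    obtain ⟨v, hv⟩ := hensel_quad p e b 2 0 (by
      have h4 : (2 : ZMod p) = 0 := by
        have h5 : ((2 : ℕ) : ZMod p) = 0 := by
          rw [ZMod.natCast_eq_zero_iff, h2]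
        exact_mod_cast h5
      rw [map_add, map_add, map_mul, map_pow, map_mul, map_zero, map_ofNat, h4]
      ring) (by rw [mul_zero, zero_add]; exact hb)
    exact ⟨1, v, by linear_combination hv⟩
  · have hodd : p % 2 = 1 := by
      rcases hp.out.eq_two_or_odd with h | h
      · exact absurd h h2
      · exact h
    have h2z : (2 : ZMod p) ≠ 0 := by
      intro h
      have : p ∣ 2 := by
        rw [← ZMod.natCast_eq_zero_iff]
        exact_mod_cast h
      exact h2 ((Nat.prime_dvd_prime_iff_eq hp.out Nat.prime_two).1 this)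
    have hDz := (isUnit_iff_toZMod p _).1 hD
    set b' := PadicInt.toZMod b with hb'
    set e' := PadicInt.toZMod e with he'
    have hD' : b' ^ 2 - 4 * e' ≠ 0 := by
      rw [map_sub, map_pow, map_mul, map_ofNat] at hDz
      exact hDz
    obtain ⟨X, Y, hXY⟩ := FiniteField.exists_root_sum_quadratic (R := ZMod p)
      (f := Polynomial.X ^ 2) (g := Polynomial.C (-(b' ^ 2 - 4 * e')) * Polynomial.X ^ 2
        + Polynomial.C 0 * Polynomial.X + Polynomial.C 4)
      (Polynomial.degree_X_pow 2) (Polynomial.degree_quadratic (neg_ne_zero.2 hD'))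
      (by rw [ZMod.card, hodd])
    simp only [Polynomial.eval_add, Polynomial.eval_mul, Polynomial.eval_pow, Polynomial.eval_X,
      Polynomial.eval_C, zero_mul, add_zero] at hXY
    obtain ⟨u1, hu1⟩ := ZMod.ringHom_surjective (PadicInt.toZMod (p := p)) ((X - b' * Y) / 2)
    obtain ⟨v1, hv1⟩ := ZMod.ringHom_surjective (PadicInt.toZMod (p := p)) Y
    have hval : (PadicInt.toZMod u1) ^ 2 + b' * (PadicInt.toZMod u1) * (PadicInt.toZMod v1)
        + e' * (PadicInt.toZMod v1) ^ 2 + 1 = 0 := by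
      rw [hu1, hv1]
      field_simp
      linear_combination hXY
    by_cases hc : IsUnit (2 * u1 + b * v1)
    · obtain ⟨u, hu⟩ := hensel_quad p 1 (b * v1) (e * v1 ^ 2 + 1) u1 (by
        rw [← hval]
        simp only [map_add, map_mul, map_pow, map_one]
        rw [← hb', ← he']
        ring) (by rw [mul_one]; exact hc)
      exact ⟨u, v1, by linear_combination hu⟩
    · have hc' : IsUnit (b * u1 + 2 * e * v1) := by
        by_contra hcon
        rw [isUnit_iff_toZMod, not_not] at hc hcon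
        simp only [map_add, map_mul, map_ofNat] at hc hcon
        rw [← hb'] at hc hcon
        rw [← he'] at hcon
        have hv0 : PadicInt.toZMod v1 = 0 := by
          have : (b' ^ 2 - 4 * e') * PadicInt.toZMod v1 = 0 := by
            linear_combination b' * hc - 2 * hcon
          exact (mul_eq_zero.1 this).resolve_left hD'
        have hu0 : PadicInt.toZMod u1 = 0 := by
          rw [hv0, mul_zero, add_zero] at hc
          exact (mul_eq_zero.1 hc).resolve_left h2z
        rw [hu0, hv0] at hval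
        simp at hval
      obtain ⟨v, hv⟩ := hensel_quad p e (b * u1) (u1 ^ 2 + 1) v1 (by
        rw [← hval]
        simp only [map_add, map_mul, map_pow, map_one]
        rw [← hb', ← he']
        ring) (by
          rw [show 2 * e * v1 + b * u1 = b * u1 + 2 * e * v1 by ring]
          exact hc')
      exact ⟨u1, v, by linear_combination hv⟩

/-- `-1` is a square in `ℤ_p` for `p ≡ 1 mod 4`. -/
theorem exists_sqrt_neg_one (h4 : p % 4 = 1) : ∃ u : ℤ_[p], u ^ 2 = -1 := by
  have h3 : p % 4 ≠ 3 := by omega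
  obtain ⟨i, hi⟩ := (ZMod.exists_sq_eq_neg_one_iff (p := p)).2 h3
  have h2z : (2 : ZMod p) ≠ 0 := by
    intro h
    have : p ∣ 2 := by
      rw [← ZMod.natCast_eq_zero_iff]
      exact_mod_cast h
    have := (Nat.prime_dvd_prime_iff_eq hp.out Nat.prime_two).1 this
    omega
  obtain ⟨u1, hu1⟩ := ZMod.ringHom_surjective (PadicInt.toZMod (p := p)) i
  obtain ⟨u, hu⟩ := hensel_quad p 1 0 1 u1 (by
    simp only [map_add, map_mul, map_pow, map_one, map_zero]
    rw [hu1]
    linear_combination -hi) (by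
      rw [isUnit_iff_toZMod]
      simp only [map_add, map_mul, map_ofNat, map_one, map_zero]
      rw [hu1, add_zero, mul_one]
      refine mul_ne_zero h2z ?_
      rintro rfl
      simp at hi)
  exact ⟨u, by linear_combination hu⟩

/-- systems of diagonal forms, `p ≡ 1 mod 4`. -/
theorem diag_one_mod_four (h4 : p % 4 = 1) {r n : ℕ} (hn : 4 * r < n)
    (c : Fin r → Fin n → ℚ_[p]) :
    ∃ x : Fin n → ℚ_[p], x ≠ 0 ∧ ∀ i, ∑ j, c i j * x j ^ 2 = 0 := by
  obtain ⟨u, hu⟩ := exists_sqrt_neg_one p h4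
  have h2 : IsUnit (2 : ℤ_[p]) := by
    rw [isUnit_iff_toZMod, map_ofNat]
    intro h
    have : p ∣ 2 := by
      rw [← ZMod.natCast_eq_zero_iff]
      exact_mod_cast h
    have := (Nat.prime_dvd_prime_iff_eq hp.out Nat.prime_two).1 this
    omega
  obtain ⟨x, hx0, hx⟩ := main_padic p (m := n) (r := r) (fun _ => 1) (fun _ => 1)
    (fun _ _ => 1) (by
      intro j a ha
      obtain ⟨t, ht⟩ := ha
      have h0 : t = 0 := Subsingleton.elim _ _
      subst h0
      rw [Fin.sum_univ_one, Matrix.det_fin_one]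
      have h3 : (a 0 • ((1 : Matrix (Fin 1) (Fin 1) ℤ_[p]) + (1 : Matrix (Fin 1) (Fin 1)
        ℤ_[p]).transpose)) 0 0 = a 0 * 2 := by
        simp only [Matrix.smul_apply, Matrix.add_apply, Matrix.transpose_apply,
          Matrix.one_apply_eq, smul_eq_mul]
        ring
      rw [h3]
      exact ht.mul h2) ⟨0, by omega⟩ (by
      intro j _
      refine ⟨!![u], ?_, ?_⟩
      · rw [Matrix.det_fin_one]
        have h3 : u * (-u) = 1 := by linear_combination -hu
        exact IsUnit.of_mul_eq_one _ h3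
      · intro t x
        rw [Q_eq, Q_eq]
        simp [Matrix.mulVec, dotProduct]
        linear_combination (x 0) ^ 2 * hu) (by simpa using hn)
    (fun j i _ => c i j)
  refine ⟨fun j => x j 0, ?_, ?_⟩
  · intro h
    apply hx0
    funext j t
    have h0 : t = 0 := Subsingleton.elim _ _
    rw [h0]
    exact congrFun h j
  · intro i
    rw [← hx i]
    refine sum_congr rfl fun j _ => ?_
    rw [Fin.sum_univ_one, Fin.sum_univ_one, Fin.sum_univ_one, Matrix.one_apply_eq,
      PadicInt.coe_one]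
    ring

/-- systems of combinations of binary forms with unit discriminant. -/
theorem binary_blocks {r m : ℕ} (hm : 2 * r < m) (a b c : Fin m → ℤ_[p])
    (hD : ∀ j, IsUnit (b j ^ 2 - 4 * (a j * c j))) (d : Fin r → Fin m → ℚ_[p]) :
    ∃ x y : Fin m → ℚ_[p], (x ≠ 0 ∨ y ≠ 0) ∧
      ∀ i, ∑ j, d i j * (a j * x j ^ 2 + b j * (x j * y j) + c j * y j ^ 2) = 0 := by
  obtain ⟨x, hx0, hx⟩ := main_padic p (m := m) (r := r) (fun _ => 2) (fun _ => 1)
    (fun j _ => !![a j, b j; 0, c j]) (by
      intro j w hw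
      obtain ⟨t, ht⟩ := hw
      have h0 : t = 0 := Subsingleton.elim _ _
      subst h0
      have hM : !![a j, b j; 0, c j] + (!![a j, b j; 0, c j]).transpose
          = !![a j + a j, b j; b j, c j + c j] := by
        ext u v
        fin_cases u <;> fin_cases v <;> simp [Matrix.transpose_apply]
      have h3 : (∑ t : Fin 1, w t • (!![a j, b j; 0, c j] +
          (!![a j, b j; 0, c j]).transpose)).det = - ((w 0) ^ 2 * (b j ^ 2 - 4 * (a j * c j))) := by
        rw [Fin.sum_univ_one, hM, Matrix.det_smul, Matrix.det_fin_two_of, Fintype.card_fin]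
        ring
      rw [h3]
      exact ((ht.pow 2).mul (hD j)).neg) ⟨0, by omega⟩ (by
      intro j _
      obtain ⟨u, v, huv⟩ := norm_neg_one p (b j) (a j * c j) (hD j)
      refine ⟨!![u, -(c j * v); a j * v, u + b j * v], ?_, ?_⟩
      · rw [Matrix.det_fin_two]
        have h3 : (!![u, -(c j * v); a j * v, u + b j * v]) 0 0 *
            (!![u, -(c j * v); a j * v, u + b j * v]) 1 1 -
            (!![u, -(c j * v); a j * v, u + b j * v]) 0 1 *
            (!![u, -(c j * v); a j * v, u + b j * v]) 1 0 = -1 := by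
          simp
          linear_combination huv
        rw [h3]
        exact isUnit_one.neg
      · intro t x
        rw [Q_eq, Q_eq]
        simp [Matrix.mulVec, dotProduct, Fin.sum_univ_two]
        linear_combination (a j * x 0 ^ 2 + b j * x 0 * x 1 + c j * x 1 ^ 2) * huv) (by
      rw [sum_const, card_univ, Fintype.card_fin, smul_eq_mul]
      omega)
    (fun j i _ => d i j)
  refine ⟨fun j => x j 0, fun j => x j 1, ?_, ?_⟩
  · by_contra hcon
    push Not at hcon
    apply hx0
    funext j t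
    fin_cases t
    · exact congrFun hcon.1 j
    · exact congrFun hcon.2 j
  · intro i
    rw [← hx i]
    refine sum_congr rfl fun j _ => ?_
    rw [Fin.sum_univ_one]
    congr 1
    simp [Fin.sum_univ_two]
    ring

end

end MPc77682.DB
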